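import Mathlib
import Pool.Agent.Lib.MP_579feb_co.Main

set_option autoImplicit false

namespace Pool.Agent.Results.MP_579feb_co.HalfBound

/-- Every finite connected cubic graph has a total restrained dominating set with at most half of
its vertices. -/
theorem result {V : Type*} [Fintype V] [DecidableEq V] (G : SimpleGraph V) [DecidableRel G.Adj]
    (hconn : G.Connected) (hcubic : G.IsRegularOfDegree 3) :
    ∃ S : Finset V,
      (∀ v : V, ∃ w : V, w ∈ S ∧ G.Adj v w) ∧
      (∀ v : V, v ∉ S → ∃ w : V, w ∉ S ∧ G.Adj v w) ∧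
      2 * S.card ≤ Fintype.card V := by
  obtain ⟨S, hS, hcard⟩ := Pool.Agent.Lib.MP_579feb_co.main G hconn hcubic
  exact ⟨S, hS.1, hS.2, hcard⟩

end Pool.Agent.Results.MP_579feb_co.HalfBound
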